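import Pool.Agent.H983R3.Final

/-!
Hyperbolic 3-space has, for every `r`, a cover in which every `r`-ball meets at most three
members and all members have growth at most quadratic. Hence
`asdim_{o(poly(3))}` of hyperbolic 3-space is at most `2`, so the equality
`asdim_{o(poly(d))} = d` fails for `d = 3`.

All definitions used in the statement (`Hyp`, `hdist`, `IsNet`, `GrowthLE`, `AsdimLE`, `asdim`,
`oPoly`) are in `Pool.Agent.H983R3.Hyp`.
-/

namespace Pool.Agent.Results.MP_28f3fb_gt.Disproof

open Pool.Agent.H983R3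

/-- Nets of hyperbolic 3-space exist, and every net `Z` of hyperbolic 3-space satisfies
`asdim_{o(poly(3))} Z ≤ 2`. -/
theorem result : (∃ Z : Set (Hyp 3), IsNet Z) ∧
    ∀ Z : Set (Hyp 3), IsNet Z → asdim (oPoly 3) Z ≤ 2 :=
  ⟨exists_net 3, fun Z hZ => asdim_le_two Z hZ⟩

end Pool.Agent.Results.MP_28f3fb_gt.Disproof
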